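import Pool.Agent.Helper808_Box.Box
import Pool.Agent.Helper808_Box.Count

/-!
# Berge extremal function of `I_2 × I_2 × I_2`
-/

set_option autoImplicit false

open Filter Asymptotics Finset

namespace Pool.Agent.Results.MP_be95e3_co.RatioUnbounded

/-- A `(0,1)`-matrix is given by its entries in `Fin 2`; it is simple if no two of its columns are
equal. -/
def Simple {R C : Type} (A : Matrix R C (Fin 2)) : Prop :=
  ∀ j j' : C, (∀ i, A i j = A i j') → j = j'

/-- `F` is a Berge hypergraph of `A`: there are distinct rows `ρ i` and distinct columns `κ j` of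
`A` (in any order, so that row and column permutations of `F` are allowed) such that `F` is
entrywise at most the resulting submatrix. -/
def Berge {R C R' C' : Type} (F : Matrix R C (Fin 2)) (A : Matrix R' C' (Fin 2)) : Prop :=
  ∃ (ρ : R → R') (κ : C → C'), Function.Injective ρ ∧ Function.Injective κ ∧
    ∀ i j, F i j ≤ A (ρ i) (κ j)

/-- `Bh m F` is the maximal number of columns of an `m`-rowed simple `(0,1)`-matrix which does not
have `F` as a Berge hypergraph. -/
noncomputable def Bh {R C : Type} (m : ℕ) (F : Matrix R C (Fin 2)) : ℕ :=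
  sSup {n : ℕ | ∃ A : Matrix (Fin m) (Fin n) (Fin 2), Simple A ∧ ¬ Berge F A}

/-- `f m F P` is the maximal number of columns of an `m`-rowed simple `(0,1)`-matrix `A` which is a
Berge hypergraph of `P` and does not have `F` as a Berge hypergraph. -/
noncomputable def f {R C R' C' : Type} (m : ℕ) (F : Matrix R C (Fin 2))
    (P : Matrix R' C' (Fin 2)) : ℕ :=
  sSup {n : ℕ | ∃ A : Matrix (Fin m) (Fin n) (Fin 2), Simple A ∧ Berge A P ∧ ¬ Berge F A}

/-- The product of two matrices: all stackings of a column of `A` above a column of `B`. -/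
def prod {R C R' C' : Type} (A : Matrix R C (Fin 2)) (B : Matrix R' C' (Fin 2)) :
    Matrix (R ⊕ R') (C × C') (Fin 2) :=
  fun i j => Sum.elim (fun r => A r j.1) (fun r => B r j.2) i

/-- The identity matrix. -/
def I (t : ℕ) : Matrix (Fin t) (Fin t) (Fin 2) := fun i j => if i = j then 1 else 0

/-- The matrix `I_t × I_t × I_t`. -/
def I3 (t : ℕ) : Matrix (Fin t ⊕ (Fin t ⊕ Fin t)) (Fin t × (Fin t × Fin t)) (Fin 2) :=
  prod (I t) (prod (I t) (I t))

lemma fin2 {a b : Fin 2} (h : a = 1 ↔ b = 1) : a = b := by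
  revert a b; decide

lemma le_ite {p : Prop} [Decidable p] (h : (1 : Fin 2) ≤ if p then 1 else 0) : p := by
  by_contra hc
  rw [if_neg hc] at h
  exact absurd h (by decide)

lemma ite_le {p : Prop} [Decidable p] {a : Fin 2} (h : p → a = 1) : (if p then 1 else 0) ≤ a := by
  by_cases hp : p
  · rw [if_pos hp, h hp]
  · rw [if_neg hp]; exact Fin.zero_le _

/-- The upper bound of Erdős. -/
theorem upper {t : ℕ} (ht : 1 ≤ t) {n : ℕ} (A : Matrix (Fin (3 * t)) (Fin n) (Fin 2))
    (hs : Simple A) (hP : Berge A (I3 t)) (hF : ¬ Berge (I3 2) A) : n ^ 4 ≤ 524336 * t ^ 11 := by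
  classical
  obtain ⟨ρ, κ, hρ, hκ, h⟩ := hP
  have sup : ∀ i j, A i j = 1 → ρ i = Sum.inl (κ j).1 ∨ ρ i = Sum.inr (Sum.inl (κ j).2.1) ∨
      ρ i = Sum.inr (Sum.inr (κ j).2.2) := by
    intro i j hij
    have h1 := h i j
    rw [hij] at h1
    rcases hr : ρ i with r | r | r
    · rw [hr] at h1
      left; rw [le_ite h1]
    · rw [hr] at h1
      right; left; rw [le_ite h1]
    · rw [hr] at h1
      right; right; rw [le_ite h1]
  have ho : ∀ (v : Fin t ⊕ (Fin t ⊕ Fin t)) (j : Fin n), ∃ o : Option (Fin (3 * t)),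
      ∀ i, o = some i ↔ (ρ i = v ∧ A i j = 1) := by
    intro v j
    by_cases hh : ∃ i, ρ i = v ∧ A i j = 1
    · obtain ⟨i, hi1, hi2⟩ := hh
      refine ⟨some i, fun i' => ?_⟩
      constructor
      · intro h1
        rw [Option.some_inj] at h1
        subst h1
        exact ⟨hi1, hi2⟩
      · rintro ⟨h1, h2⟩
        rw [Option.some_inj]
        exact hρ (hi1.trans h1.symm)
    · refine ⟨none, fun i' => ?_⟩
      constructor
      · intro h1; exact absurd h1 (by simp)
      · intro h1; exact absurd ⟨i', h1⟩ hh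
  choose o ho using ho
  let Full : Fin n → Prop := fun j => ∃ r1 r2 r3 : Fin (3 * t), ρ r1 = Sum.inl (κ j).1 ∧
    ρ r2 = Sum.inr (Sum.inl (κ j).2.1) ∧ ρ r3 = Sum.inr (Sum.inr (κ j).2.2) ∧
    A r1 j = 1 ∧ A r2 j = 1 ∧ A r3 j = 1
  set G : Finset (Fin n) := univ.filter fun j => Full j with hG
  set G' : Finset (Fin n) := univ.filter fun j => ¬ Full j with hG'
  have hn : G.card + G'.card = n := by
    rw [hG, hG', Finset.card_filter_add_card_filter_not]
    simp
  -- the columns which are not full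
  have c1 : G'.card ≤ (3 * t + 1) * (3 * t + 1) := by
    have hg : ∀ j ∈ G', ∃ g : Option (Fin (3 * t)) × Option (Fin (3 * t)),
        ∀ i, A i j = 1 ↔ (g.1 = some i ∨ g.2 = some i) := by
      intro j hj
      rw [hG', Finset.mem_filter] at hj
      have hj2 := hj.2
      rcases h1 : o (Sum.inl (κ j).1) j with _ | r1
      · refine ⟨(o (Sum.inr (Sum.inl (κ j).2.1)) j, o (Sum.inr (Sum.inr (κ j).2.2)) j), fun i => ?_⟩
        simp only [ho]
        constructor
        · intro hi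
          rcases sup i j hi with h2 | h2 | h2
          · have := (ho _ _ i).2 ⟨h2, hi⟩
            rw [h1] at this
            exact absurd this (by simp)
          · exact Or.inl ⟨h2, hi⟩
          · exact Or.inr ⟨h2, hi⟩
        · rintro (h2 | h2)
          · exact h2.2
          · exact h2.2
      rcases h1' : o (Sum.inr (Sum.inl (κ j).2.1)) j with _ | r2
      · refine ⟨(o (Sum.inl (κ j).1) j, o (Sum.inr (Sum.inr (κ j).2.2)) j), fun i => ?_⟩
        simp only [ho]
        constructor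
        · intro hi
          rcases sup i j hi with h2 | h2 | h2
          · exact Or.inl ⟨h2, hi⟩
          · have := (ho _ _ i).2 ⟨h2, hi⟩
            rw [h1'] at this
            exact absurd this (by simp)
          · exact Or.inr ⟨h2, hi⟩
        · rintro (h2 | h2)
          · exact h2.2
          · exact h2.2
      rcases h1'' : o (Sum.inr (Sum.inr (κ j).2.2)) j with _ | r3
      · refine ⟨(o (Sum.inl (κ j).1) j, o (Sum.inr (Sum.inl (κ j).2.1)) j), fun i => ?_⟩
        simp only [ho]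
        constructor
        · intro hi
          rcases sup i j hi with h2 | h2 | h2
          · exact Or.inl ⟨h2, hi⟩
          · exact Or.inr ⟨h2, hi⟩
          · have := (ho _ _ i).2 ⟨h2, hi⟩
            rw [h1''] at this
            exact absurd this (by simp)
        · rintro (h2 | h2)
          · exact h2.2
          · exact h2.2
      · exfalso
        apply hj2
        exact ⟨r1, r2, r3, ((ho _ _ _).1 h1).1, ((ho _ _ _).1 h1').1, ((ho _ _ _).1 h1'').1,
          ((ho _ _ _).1 h1).2, ((ho _ _ _).1 h1').2, ((ho _ _ _).1 h1'').2⟩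
    choose! g hg using hg
    have hinj : Set.InjOn g (G' : Set (Fin n)) := by
      intro j hj j' hj' hjj
      apply hs
      intro i
      apply fin2
      rw [hg j hj i, hg j' hj' i, hjj]
    have := Finset.card_le_card_of_injOn g (t := Finset.univ) (fun _ _ => Finset.mem_univ _) hinj
    simpa [Fintype.card_prod] using this
  -- the full columns
  have c2 : G.card ^ 4 ≤ 6 * t ^ 11 := by
    have h1 : (G.image κ).card = G.card := Finset.card_image_of_injective _ hκ
    rw [← h1]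
    apply Helper808_Box.box_bound (Fintype.card_fin t)
    rintro ⟨x, y, z, hx, hy, hz, hh⟩
    apply hF
    have hc : ∀ i j k, ∃ c : Fin n, Full c ∧ κ c = (x i, y j, z k) := by
      intro i j k
      obtain ⟨c, hc, hc'⟩ := Finset.mem_image.1 (hh i j k)
      exact ⟨c, (Finset.mem_filter.1 hc).2, hc'⟩
    choose c hc hc' using hc
    have hrx : ∀ i, ∃ r, ρ r = Sum.inl (x i) := by
      intro i
      obtain ⟨r1, r2, r3, h1, -⟩ := hc i 0 0
      exact ⟨r1, by rw [h1, hc']⟩
    have hry : ∀ i, ∃ r, ρ r = Sum.inr (Sum.inl (y i)) := by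
      intro i
      obtain ⟨r1, r2, r3, -, h1, -⟩ := hc 0 i 0
      exact ⟨r2, by rw [h1, hc']⟩
    have hrz : ∀ i, ∃ r, ρ r = Sum.inr (Sum.inr (z i)) := by
      intro i
      obtain ⟨r1, r2, r3, -, -, h1, -⟩ := hc 0 0 i
      exact ⟨r3, by rw [h1, hc']⟩
    choose rx hrx using hrx
    choose ry hry using hry
    choose rz hrz using hrz
    refine ⟨Sum.elim rx (Sum.elim ry rz), fun q => c q.1 q.2.1 q.2.2, ?_, ?_, ?_⟩
    · intro u v huv
      have h2 := congrArg ρ huv
      rcases u with u | u | u <;> rcases v with v | v | v <;>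
        simp only [Sum.elim_inl, Sum.elim_inr, hrx, hry, hrz, Sum.inl.injEq, Sum.inr.injEq,
          reduceCtorEq] at h2
      · rw [hx h2]
      · rw [hy h2]
      · rw [hz h2]
    · rintro ⟨i, j, k⟩ ⟨i', j', k'⟩ hq
      have h2 := congrArg κ hq
      simp only [hc', Prod.mk.injEq] at h2
      rw [hx h2.1, hy h2.2.1, hz h2.2.2]
    · rintro i ⟨a, b, d⟩
      obtain ⟨r1, r2, r3, h1, h2, h3, h4, h5, h6⟩ := hc a b d
      rw [hc'] at h1 h2 h3
      rcases i with i | i | i
      · show (if i = a then 1 else 0) ≤ A (rx i) (c a b d)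
        refine ite_le fun hia => ?_
        subst hia
        rw [hρ ((hrx i).trans h1.symm), h4]
      · show (if i = b then 1 else 0) ≤ A (ry i) (c a b d)
        refine ite_le fun hia => ?_
        subst hia
        rw [hρ ((hry i).trans h2.symm), h5]
      · show (if i = d then 1 else 0) ≤ A (rz i) (c a b d)
        refine ite_le fun hia => ?_
        subst hia
        rw [hρ ((hrz i).trans h3.symm), h6]
  have c3 : G'.card ≤ 16 * t ^ 2 := by nlinarith
  have c4 : t ^ 8 ≤ t ^ 11 := Nat.pow_le_pow_right ht (by norm_num)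
  calc n ^ 4 = (G.card + G'.card) ^ 4 := by rw [hn]
    _ ≤ 2 ^ (4 - 1) * (G.card ^ 4 + G'.card ^ 4) := add_pow_le (Nat.zero_le _) (Nat.zero_le _) 4
    _ ≤ 2 ^ (4 - 1) * (6 * t ^ 11 + (16 * t ^ 2) ^ 4) :=
      Nat.mul_le_mul_left _ (Nat.add_le_add c2 (Nat.pow_le_pow_left c3 4))
    _ = 48 * t ^ 11 + 524288 * t ^ 8 := by ring
    _ ≤ 48 * t ^ 11 + 524288 * t ^ 11 := Nat.add_le_add_left (Nat.mul_le_mul_left _ c4) _
    _ = 524336 * t ^ 11 := by ring

lemma bdd {R C : Type} (m : ℕ) (F : Matrix R C (Fin 2)) :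
    BddAbove {n : ℕ | ∃ A : Matrix (Fin m) (Fin n) (Fin 2), Simple A ∧ ¬ Berge F A} := by
  refine ⟨2 ^ m, ?_⟩
  rintro n ⟨A, hA, -⟩
  have h : Function.Injective (fun j : Fin n => fun i : Fin m => A i j) := by
    intro j j' h
    exact hA j j' fun i => congrFun h i
  have := Fintype.card_le_of_injective _ h
  simpa using this

theorem f_le {t : ℕ} (ht : 1 ≤ t) : f (3 * t) (I3 2) (I3 t) ^ 4 ≤ 524336 * t ^ 11 := by
  have hmem : f (3 * t) (I3 2) (I3 t) ∈ {n : ℕ | ∃ A : Matrix (Fin (3 * t)) (Fin n) (Fin 2),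
      Simple A ∧ Berge A (I3 t) ∧ ¬ Berge (I3 2) A} := by
    apply Nat.sSup_mem
    · refine ⟨0, fun _ j => j.elim0, fun j => j.elim0, ?_, ?_⟩
      · refine ⟨fun i => ?_, fun j => j.elim0, ?_, fun j => j.elim0, fun i j => j.elim0⟩
        · exact if h : i.1 < t then Sum.inl ⟨i.1, h⟩ else if h' : i.1 < 2 * t then
            Sum.inr (Sum.inl ⟨i.1 - t, by omega⟩) else Sum.inr (Sum.inr ⟨i.1 - 2 * t, by omega⟩)
        · intro i i' hii
          simp only at hii
          split_ifs at hii <;>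
            simp only [Sum.inl.injEq, Sum.inr.injEq, Fin.mk.injEq, reduceCtorEq] at hii <;>
            (apply Fin.ext; omega)
      · rintro ⟨-, κ, -, -, -⟩
        exact (κ (0, 0, 0)).elim0
    · obtain ⟨b, hb⟩ := bdd (3 * t) (I3 2)
      refine ⟨b, ?_⟩
      rintro n ⟨A, h1, -, h3⟩
      exact hb ⟨A, h1, h3⟩
  obtain ⟨A, h1, h2, h3⟩ := hmem
  exact upper ht A h1 h2 h3

lemma le_Bh {R0 C0 : Type} {m : ℕ} {F : Matrix R0 C0 (Fin 2)} {R : Type} [Fintype R]
    (e : Fintype.card R ≤ m) (H : Finset (Finset R)) (hk2 : ∀ i : R0, ∃ j, F i j = 1)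
    (hF : ¬ ∃ (ρ : R0 → R) (κ : C0 → Finset R), Function.Injective ρ ∧ (∀ j, κ j ∈ H) ∧
      ∀ i j, F i j = 1 → ρ i ∈ κ j) : H.card ≤ Bh m F := by
  classical
  apply le_csSup (bdd m F)
  have e1 : Nonempty (R ↪ Fin m) := by
    apply Function.Embedding.nonempty_of_card_le
    simpa using e
  obtain ⟨e1⟩ := e1
  let e2 := H.equivFin.symm
  refine ⟨fun i j => if ∃ r, e1 r = i ∧ r ∈ (e2 j).1 then 1 else 0, ?_, ?_⟩
  · intro j j' h
    apply e2.injective
    apply Subtype.ext
    ext r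
    have := h (e1 r)
    have aux : ∀ c : Finset R, (∃ r', e1 r' = e1 r ∧ r' ∈ c) ↔ r ∈ c := by
      intro c
      constructor
      · rintro ⟨r', h1, h2⟩
        rwa [e1.injective h1] at h2
      · intro h; exact ⟨r, rfl, h⟩
    simp only [aux] at this
    by_cases h1 : r ∈ (e2 j).1 <;> by_cases h2 : r ∈ (e2 j').1 <;> simp_all
  · rintro ⟨ρ, κ, hρ, -, h⟩
    apply hF
    have key : ∀ i j, F i j = 1 → ∃ r, e1 r = ρ i ∧ r ∈ (e2 (κ j)).1 := by
      intro i j hij
      have := h i j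
      rw [hij] at this
      exact le_ite this
    choose j hj using hk2
    choose r hr using fun i => key i (j i) (hj i)
    refine ⟨r, fun j => (e2 (κ j)).1, ?_, fun j => (e2 (κ j)).2, ?_⟩
    · intro i i' hii
      apply hρ
      rw [← (hr i).1, ← (hr i').1, hii]
    · intro i j hij
      obtain ⟨r', h1, h2⟩ := key i j hij
      have : r' = r i := e1.injective (by rw [h1, (hr i).1])
      rwa [this] at h2

open Helper808_Box in
theorem lower_field (K : Type) [Field K] [Fintype K] (h2 : (2 : K) ≠ 0) (ι : K) (hι : ι ^ 2 = -1)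
    (h18 : 18 ≤ Fintype.card K) {m : ℕ} (hm : Fintype.card K ^ 3 ≤ m) :
    Fintype.card K ^ 9 ≤ 131072 * Bh m (I3 2) := by
  classical
  obtain ⟨ν, hν⟩ : ∃ ν : K, ¬ IsSquare ν := by
    apply FiniteField.exists_nonsquare
    intro hc
    have := ringChar.Nat.cast_ringChar (R := K)
    rw [hc] at this
    exact h2 (by exact_mod_cast this)
  obtain ⟨H, hH1, hH2⟩ := family hν hι h2
  have hQ := card_Q hν hι h2
  have hB : H.card ≤ Bh m (I3 2) := by
    apply le_Bh (R := K × K × K)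
    · rw [Fintype.card_prod, Fintype.card_prod]
      refine le_trans (le_of_eq ?_) hm
      ring
    · rintro (i | i | i)
      · exact ⟨(i, i, i), if_pos rfl⟩
      · exact ⟨(i, i, i), if_pos rfl⟩
      · exact ⟨(i, i, i), if_pos rfl⟩
    · rintro ⟨ρ, κ, hρ, hκ, h⟩
      apply hH2
      refine ⟨fun i => ρ (Sum.inl i), fun i => ρ (Sum.inr (Sum.inl i)),
        fun i => ρ (Sum.inr (Sum.inr i)), ?_, ?_, ?_, ?_, ?_, ?_, ?_⟩
      · intro hc; have := hρ hc; simp at this
      · intro hc; have := hρ hc; simp at this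
      · intro hc; have := hρ hc; simp at this
      · intro i j hc; have := hρ hc; simp at this
      · intro i j hc; have := hρ hc; simp at this
      · intro i j hc; have := hρ hc; simp at this
      · intro i j k
        refine ⟨κ (i, j, k), hκ _, h _ _ ?_, h _ _ ?_, h _ _ ?_⟩
        · exact if_pos rfl
        · exact if_pos rfl
        · exact if_pos rfl
  have key : Fintype.card K ^ 9 ≤ 32 * (Q ν).card := by
    refine le_trans ?_ (Nat.mul_le_mul_left 32 hQ)
    generalize Fintype.card K = q at *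
    have h1 : q ≤ 2 * (q - 1) := by omega
    have h3 : q ≤ 2 * (q - 9) := by omega
    generalize q - 1 = a at *
    generalize q - 9 = b at *
    calc q ^ 9 = (q * (q * q)) * (q * (q * (q * (q * (q * q))))) := by ring
      _ ≤ ((2 * a) * ((2 * a) * (2 * b))) * ((2 * a) * ((2 * a) * (q * (q * (q * q))))) := by
        gcongr
      _ = 32 * (a * (a * b) * (a * (a * (q * (q * (q * q)))))) := by ring
  calc Fintype.card K ^ 9 ≤ 32 * (Q ν).card := key
    _ ≤ 32 * (4096 * H.card) := Nat.mul_le_mul_left _ hH1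
    _ ≤ 32 * (4096 * Bh m (I3 2)) := Nat.mul_le_mul_left _ (Nat.mul_le_mul_left _ hB)
    _ = 131072 * Bh m (I3 2) := by ring

theorem one_le_Bh (m : ℕ) : 1 ≤ Bh m (I3 2) := by
  apply le_csSup (bdd m (I3 2))
  refine ⟨fun _ _ => 0, fun j j' _ => Subsingleton.elim _ _, ?_⟩
  rintro ⟨-, κ, -, hκ, -⟩
  have := @hκ (0, 0, 0) (1, 1, 1) (Subsingleton.elim _ _)
  simp at this

theorem lower_nat (m : ℕ) : m ^ 3 ≤ (4 * 10 ^ 12) * Bh m (I3 2) := by
  rcases Nat.lt_or_ge m 15625 with hm | hm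
  · have h1 := one_le_Bh m
    calc m ^ 3 ≤ 15625 ^ 3 := Nat.pow_le_pow_left hm.le 3
      _ ≤ (4 * 10 ^ 12) * 1 := by norm_num
      _ ≤ _ := Nat.mul_le_mul_left _ h1
  · haveI : Fact (Nat.Prime 5) := ⟨by norm_num⟩
    set k := Nat.log 125 m with hk
    have hm0 : m ≠ 0 := by omega
    have hk1 : 125 ^ k ≤ m := Nat.pow_log_le_self 125 hm0
    have hk2 : m < 125 ^ (k + 1) := Nat.lt_pow_succ_log_self (by norm_num) m
    have hk3 : 2 ≤ k := by
      by_contra hc
      have : k + 1 ≤ 2 := by omega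
      have := Nat.pow_le_pow_right (n := 125) (by norm_num) this
      omega
    letI : Fintype (GaloisField 5 k) := Fintype.ofFinite _
    have hcard : Fintype.card (GaloisField 5 k) = 5 ^ k := by
      rw [← Nat.card_eq_fintype_card]
      exact GaloisField.card 5 k (by omega)
    have h5 : (5 : GaloisField 5 k) = 0 := by
      have := CharP.cast_eq_zero (GaloisField 5 k) 5
      exact_mod_cast this
    have h2 : (2 : GaloisField 5 k) ≠ 0 := by
      intro h
      have : (1 : GaloisField 5 k) = 0 := by linear_combination h5 - 2 * h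
      exact one_ne_zero this
    have h25 : 25 ≤ 5 ^ k := by
      calc 25 = 5 ^ 2 := by norm_num
        _ ≤ 5 ^ k := Nat.pow_le_pow_right (by norm_num) hk3
    have h9 := lower_field (GaloisField 5 k) h2 2 (by linear_combination h5) (by rw [hcard]; omega)
      (m := m) (by rw [hcard, ← pow_mul, mul_comm, pow_mul]; exact hk1)
    rw [hcard] at h9
    have hk4 : m ^ 3 ≤ 125 ^ 3 * (5 ^ k) ^ 9 := by
      calc m ^ 3 ≤ (125 ^ (k + 1)) ^ 3 := Nat.pow_le_pow_left hk2.le 3
        _ = 125 ^ 3 * (125 ^ k) ^ 3 := by rw [pow_succ 125 k, mul_pow, mul_comm]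
        _ = 125 ^ 3 * (5 ^ k) ^ 9 := by
          have h125 : (125 : ℕ) ^ k = (5 ^ k) ^ 3 := by
            rw [show (125 : ℕ) = 5 ^ 3 by norm_num, ← pow_mul, ← pow_mul, mul_comm]
          rw [h125, ← pow_mul]
    calc m ^ 3 ≤ 125 ^ 3 * (5 ^ k) ^ 9 := hk4
      _ ≤ 125 ^ 3 * (131072 * Bh m (I3 2)) := Nat.mul_le_mul_left _ h9
      _ = (125 ^ 3 * 131072) * Bh m (I3 2) := by ring
      _ ≤ (4 * 10 ^ 12) * Bh m (I3 2) := Nat.mul_le_mul_right _ (by norm_num)

theorem one_le_f {t : ℕ} (ht : 1 ≤ t) : 1 ≤ f (3 * t) (I3 2) (I3 t) := by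
  apply le_csSup
  · obtain ⟨b, hb⟩ := bdd (3 * t) (I3 2)
    refine ⟨b, ?_⟩
    rintro n ⟨A, h1, -, h3⟩
    exact hb ⟨A, h1, h3⟩
  · refine ⟨fun _ _ => 0, fun j j' _ => Subsingleton.elim _ _, ?_, ?_⟩
    · refine ⟨fun i => ?_, fun j => (⟨0, ht⟩, ⟨0, ht⟩, ⟨0, ht⟩), ?_,
        fun j j' _ => Subsingleton.elim _ _, fun i j => Fin.zero_le _⟩
      · exact if h : i.1 < t then Sum.inl ⟨i.1, h⟩ else if h' : i.1 < 2 * t then
          Sum.inr (Sum.inl ⟨i.1 - t, by omega⟩) else Sum.inr (Sum.inr ⟨i.1 - 2 * t, by omega⟩)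
      · intro i i' hii
        simp only at hii
        split_ifs at hii <;>
          simp only [Sum.inl.injEq, Sum.inr.injEq, Fin.mk.injEq, reduceCtorEq] at hii <;>
          (apply Fin.ext; omega)
    · rintro ⟨-, κ, -, hκ, -⟩
      have := @hκ (0, 0, 0) (1, 1, 1) (Subsingleton.elim _ _)
      simp at this

/-- The order of `Bh m (I_2 × I_2 × I_2)` is at least `m^3`, and the ratio of `Bh (3t)` and
`f (3t)` is at least a constant times `t^(1/4)`. -/
theorem result :
    (∀ m : ℕ, (m : ℝ) ^ 3 / (4 * 10 ^ 12) ≤ (Bh m (I3 2) : ℝ)) ∧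
    (∀ t : ℕ, 1 ≤ t → (t : ℝ) ^ (1 / 4 : ℝ) / (4 * 10 ^ 12) ≤
      (Bh (3 * t) (I3 2) : ℝ) / (f (3 * t) (I3 2) (I3 t) : ℝ)) ∧
    Tendsto (fun t : ℕ => (Bh (3 * t) (I3 2) : ℝ) / (f (3 * t) (I3 2) (I3 t) : ℝ)) atTop atTop ∧
    ¬ (fun t : ℕ => (Bh (3 * t) (I3 2) : ℝ)) =Θ[atTop]
      fun t : ℕ => (f (3 * t) (I3 2) (I3 t) : ℝ) := by
  have h1 : ∀ m : ℕ, (m : ℝ) ^ 3 / (4 * 10 ^ 12) ≤ (Bh m (I3 2) : ℝ) := by
    intro m
    rw [div_le_iff₀ (by positivity)]
    have := lower_nat m
    have h : ((m ^ 3 : ℕ) : ℝ) ≤ (((4 * 10 ^ 12) * Bh m (I3 2) : ℕ) : ℝ) := by exact_mod_cast this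
    push_cast at h
    linarith
  have h2 : ∀ t : ℕ, 1 ≤ t → (t : ℝ) ^ (1 / 4 : ℝ) / (4 * 10 ^ 12) ≤
      (Bh (3 * t) (I3 2) : ℝ) / (f (3 * t) (I3 2) (I3 t) : ℝ) := by
    intro t ht
    have ht' : (1 : ℝ) ≤ t := by exact_mod_cast ht
    have hf1 : (1 : ℝ) ≤ (f (3 * t) (I3 2) (I3 t) : ℝ) := by exact_mod_cast one_le_f ht
    have hf2 : ((f (3 * t) (I3 2) (I3 t) : ℝ)) ^ 4 ≤ 524336 * (t : ℝ) ^ 11 := by
      exact_mod_cast f_le ht
    have hB := h1 (3 * t)
    push_cast at hB
    rw [le_div_iff₀ (by linarith)]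
    refine le_trans ?_ hB
    set s := (t : ℝ) ^ (1 / 4 : ℝ) with hs
    have hs0 : 0 ≤ s := by positivity
    have hs4 : s ^ 4 = t := by
      rw [hs, ← Real.rpow_natCast, ← Real.rpow_mul (by linarith)]
      norm_num
    have hf3 : (f (3 * t) (I3 2) (I3 t) : ℝ) ≤ 27 * s ^ 11 := by
      refine le_of_pow_le_pow_left₀ (n := 4) (by norm_num) (by positivity) (hf2.trans ?_)
      have : (27 * s ^ 11) ^ 4 = 531441 * (s ^ 4) ^ 11 := by ring
      rw [this, hs4]
      have : (0 : ℝ) ≤ (t : ℝ) ^ 11 := by positivity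
      linarith
    have h3 : s * (f (3 * t) (I3 2) (I3 t) : ℝ) ≤ (3 * (t : ℝ)) ^ 3 := by
      calc s * (f (3 * t) (I3 2) (I3 t) : ℝ) ≤ s * (27 * s ^ 11) :=
            mul_le_mul_of_nonneg_left hf3 hs0
        _ = 27 * (s ^ 4) ^ 3 := by ring
        _ = (3 * (t : ℝ)) ^ 3 := by rw [hs4]; ring
    calc s / (4 * 10 ^ 12) * (f (3 * t) (I3 2) (I3 t) : ℝ)
        = (s * (f (3 * t) (I3 2) (I3 t) : ℝ)) / (4 * 10 ^ 12) := by ring
      _ ≤ _ := div_le_div_of_nonneg_right h3 (by positivity)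
  have h3 : Tendsto (fun t : ℕ => (Bh (3 * t) (I3 2) : ℝ) / (f (3 * t) (I3 2) (I3 t) : ℝ))
      atTop atTop := by
    have hlim : Tendsto (fun t : ℕ => (t : ℝ) ^ (1 / 4 : ℝ) / (4 * 10 ^ 12)) atTop atTop :=
      ((tendsto_rpow_atTop (by norm_num)).comp tendsto_natCast_atTop_atTop).atTop_div_const
        (by positivity)
    refine tendsto_atTop_mono' atTop ?_ hlim
    filter_upwards [eventually_ge_atTop 1] with t ht
    exact h2 t ht
  refine ⟨h1, h2, h3, fun hc => ?_⟩
  obtain ⟨C, hC⟩ := hc.1.bound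
  have h4 := h3.eventually_gt_atTop C
  obtain ⟨t, ht1, ht2, ht3⟩ := (hC.and (h4.and (eventually_ge_atTop 1))).exists
  have hf1 : (1 : ℝ) ≤ (f (3 * t) (I3 2) (I3 t) : ℝ) := by exact_mod_cast one_le_f ht3
  rw [lt_div_iff₀ (by linarith)] at ht2
  simp only [Real.norm_natCast] at ht1
  linarith

end Pool.Agent.Results.MP_be95e3_co.RatioUnbounded
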